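import Mathlib
import Pool.Agent.Z700.Defs

/-!
# Z700-TORS: unimodular positive ternary forms over the integers

A positive definite symmetric integral matrix `M` of size three with determinant one is `Aᵀ A` for
exactly `24` integral matrices `A` of determinant one.
-/

set_option autoImplicit false

namespace Pool.Agent.Z815.Tors

open Matrix Pool.Agent.Z700

/-- matrices -/
abbrev M3 := Matrix (Fin 3) (Fin 3) ℤ

/-- the symmetric matrix with given entries -/
def sy (a b c d e f : ℤ) : M3 := !![a, b, c; b, d, e; c, e, f]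

/-- sums of three squares of linear forms -/
def Rep (M : M3) : Prop := ∃ A : M3, Aᵀ * A = M

theorem rep_of {M B B' : M3} (h : B * B' = 1) (hr : Rep (Bᵀ * M * B)) : Rep M := by
  obtain ⟨A, hA⟩ := hr
  refine ⟨A * B', ?_⟩
  have h2 : B'ᵀ * Bᵀ = 1 := by rw [← transpose_mul, h, transpose_one]
  calc (A * B')ᵀ * (A * B') = B'ᵀ * (Aᵀ * A) * B' := by
        rw [transpose_mul]; simp only [Matrix.mul_assoc]
    _ = (B'ᵀ * Bᵀ) * M * (B * B') := by rw [hA]; simp only [Matrix.mul_assoc]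
    _ = M := by rw [h, h2, Matrix.one_mul, Matrix.mul_one]

theorem shift12 {a b c d e f : ℤ} (t : ℤ)
    (h : Rep (sy a (b - t * a) c (d - 2 * t * b + t ^ 2 * a) (e - t * c) f)) :
    Rep (sy a b c d e f) := by
  refine rep_of (B := !![1, -t, 0; 0, 1, 0; 0, 0, 1]) (B' := !![1, t, 0; 0, 1, 0; 0, 0, 1]) ?_ ?_
  · ext i j
    fin_cases i <;> fin_cases j <;> simp [Matrix.mul_apply, Fin.sum_univ_three]
  · convert h using 1
    ext i j
    fin_cases i <;> fin_cases j <;>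
      simp [sy, Matrix.mul_apply, Fin.sum_univ_three] <;> ring

theorem shift13 {a b c d e f : ℤ} (t : ℤ)
    (h : Rep (sy a b (c - t * a) d (e - t * b) (f - 2 * t * c + t ^ 2 * a))) :
    Rep (sy a b c d e f) := by
  refine rep_of (B := !![1, 0, -t; 0, 1, 0; 0, 0, 1]) (B' := !![1, 0, t; 0, 1, 0; 0, 0, 1]) ?_ ?_
  · ext i j
    fin_cases i <;> fin_cases j <;> simp [Matrix.mul_apply, Fin.sum_univ_three]
  · convert h using 1
    ext i j
    fin_cases i <;> fin_cases j <;>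
      simp [sy, Matrix.mul_apply, Fin.sum_univ_three] <;> ring

theorem shift23 {a b c d e f : ℤ} (t : ℤ)
    (h : Rep (sy a b (c - t * b) d (e - t * d) (f - 2 * t * e + t ^ 2 * d))) :
    Rep (sy a b c d e f) := by
  refine rep_of (B := !![1, 0, 0; 0, 1, -t; 0, 0, 1]) (B' := !![1, 0, 0; 0, 1, t; 0, 0, 1]) ?_ ?_
  · ext i j
    fin_cases i <;> fin_cases j <;> simp [Matrix.mul_apply, Fin.sum_univ_three]
  · convert h using 1
    ext i j
    fin_cases i <;> fin_cases j <;>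
      simp [sy, Matrix.mul_apply, Fin.sum_univ_three] <;> ring

theorem swap12 {a b c d e f : ℤ} (h : Rep (sy d b e a c f)) : Rep (sy a b c d e f) := by
  refine rep_of (B := !![0, 1, 0; 1, 0, 0; 0, 0, 1]) (B' := !![0, 1, 0; 1, 0, 0; 0, 0, 1]) ?_ ?_
  · ext i j
    fin_cases i <;> fin_cases j <;> simp [Matrix.mul_apply, Fin.sum_univ_three]
  · convert h using 1
    ext i j
    fin_cases i <;> fin_cases j <;>
      simp [sy, Matrix.mul_apply, Fin.sum_univ_three]

theorem swap23 {a b c d e f : ℤ} (h : Rep (sy a c b f e d)) : Rep (sy a b c d e f) := by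
  refine rep_of (B := !![1, 0, 0; 0, 0, 1; 0, 1, 0]) (B' := !![1, 0, 0; 0, 0, 1; 0, 1, 0]) ?_ ?_
  · ext i j
    fin_cases i <;> fin_cases j <;> simp [Matrix.mul_apply, Fin.sum_univ_three]
  · convert h using 1
    ext i j
    fin_cases i <;> fin_cases j <;>
      simp [sy, Matrix.mul_apply, Fin.sum_univ_three]

/-- the determinant -/
def dd (a b c d e f : ℤ) : ℤ := a * (d * f - e ^ 2) - b * (b * f - e * c) + c * (b * e - d * c)

/-- division with small remainder -/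
theorem small_rem (u v : ℤ) (hv : 0 < v) : ∃ t : ℤ, |2 * (u - t * v)| ≤ v := by
  refine ⟨(2 * u + v) / (2 * v), ?_⟩
  have h1 := Int.mul_ediv_add_emod (2 * u + v) (2 * v)
  have h2 := Int.emod_nonneg (2 * u + v) (show 2 * v ≠ 0 by omega)
  have h3 := Int.emod_lt_of_pos (2 * u + v) (show 0 < 2 * v by omega)
  set t := (2 * u + v) / (2 * v)
  set r := (2 * u + v) % (2 * v)
  have h4 : 2 * (u - t * v) = r - v := by linarith
  rw [h4, abs_le]
  constructor <;> omega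

theorem final_bound {a b c d e f : ℤ} (ha : 0 < a) (hD : 0 < a * d - b ^ 2)
    (hdet : dd a b c d e f = 1) (hb : |2 * b| ≤ a) (hK : |2 * (e * a - b * c)| ≤ a * d - b ^ 2)
    (hc : |2 * c| ≤ a) (had : a ≤ d) (hDD : a * d - b ^ 2 ≤ a * f - c ^ 2) :
    a = 1 ∧ b = 0 ∧ c = 0 ∧ d = 1 ∧ e = 0 ∧ f = 1 := by
  set D := a * d - b ^ 2 with hDdef
  set D3 := a * f - c ^ 2 with hD3
  set K := e * a - b * c with hKdef
  have hschur : D * D3 - K ^ 2 = a := by
    have : D * D3 - K ^ 2 = a * dd a b c d e f := by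
      rw [hDdef, hD3, hKdef]; unfold dd; ring
    rw [this, hdet, mul_one]
  have hb2 : 4 * b ^ 2 ≤ a ^ 2 := by
    have := abs_le.1 hb
    nlinarith
  have hK2 : 4 * K ^ 2 ≤ D ^ 2 := by
    have := abs_le.1 hK
    nlinarith
  have h1 : 3 * D ^ 2 ≤ 4 * a := by nlinarith
  have h2 : 3 * a ^ 2 ≤ 4 * D := by nlinarith
  have ha1 : a = 1 := by
    by_contra hne
    have ha2 : 2 ≤ a := by omega
    have h3 : 3 * a ≤ 2 * D := by nlinarith
    nlinarith
  have hD1 : D = 1 := by nlinarith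
  have hb0 : b = 0 := by
    have := abs_le.1 hb
    omega
  have hc0 : c = 0 := by
    have := abs_le.1 hc
    omega
  have hK0 : K = 0 := by
    have := abs_le.1 hK
    omega
  have hD31 : D3 = 1 := by
    rw [hK0, hD1, ha1] at hschur
    linarith
  rw [ha1, hb0] at hDdef
  rw [ha1, hc0] at hD3
  rw [ha1, hb0] at hKdef
  refine ⟨ha1, hb0, hc0, ?_, ?_, ?_⟩ <;> linarith

theorem rep_all (n : ℕ) : ∀ a b c d e f : ℤ, 0 < a → 0 < a * d - b ^ 2 → dd a b c d e f = 1 →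
    a * (a * d - b ^ 2) ≤ n → Rep (sy a b c d e f) := by
  induction n with
  | zero =>
    intro a b c d e f ha hD _ hn
    have := mul_pos ha hD
    push_cast at hn
    omega
  | succ n ih =>
    intro a b c d e f ha hD hdet hn
    -- the first shift
    obtain ⟨t1, ht1⟩ := small_rem b a ha
    apply shift12 t1
    have hD1 : a * (d - 2 * t1 * b + t1 ^ 2 * a) - (b - t1 * a) ^ 2 = a * d - b ^ 2 := by ring
    have hdet1 : dd a (b - t1 * a) c (d - 2 * t1 * b + t1 ^ 2 * a) (e - t1 * c) f = 1 := by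
      rw [← hdet]; unfold dd; ring
    rw [← hD1] at hD hn
    generalize b - t1 * a = b1 at *
    generalize d - 2 * t1 * b + t1 ^ 2 * a = d1 at *
    generalize e - t1 * c = e1 at *
    -- the second shift
    obtain ⟨t2, ht2⟩ := small_rem (e1 * a - b1 * c) (a * d1 - b1 ^ 2) hD
    apply shift23 t2
    have hK2 : (e1 - t2 * d1) * a - b1 * (c - t2 * b1) =
        e1 * a - b1 * c - t2 * (a * d1 - b1 ^ 2) := by ring
    have hdet2 : dd a b1 (c - t2 * b1) d1 (e1 - t2 * d1) (f - 2 * t2 * e1 + t2 ^ 2 * d1) = 1 := by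
      rw [← hdet1]; unfold dd; ring
    rw [← hK2] at ht2
    generalize c - t2 * b1 = c2 at *
    generalize e1 - t2 * d1 = e2 at *
    generalize f - 2 * t2 * e1 + t2 ^ 2 * d1 = f2 at *
    -- the third shift
    obtain ⟨t3, ht3⟩ := small_rem c2 a ha
    apply shift13 t3
    have hK3 : (e2 - t3 * b1) * a - b1 * (c2 - t3 * a) = e2 * a - b1 * c2 := by ring
    have hdet3 : dd a b1 (c2 - t3 * a) d1 (e2 - t3 * b1) (f2 - 2 * t3 * c2 + t3 ^ 2 * a) = 1 := by
      rw [← hdet2]; unfold dd; ring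
    rw [← hK3] at ht2
    generalize c2 - t3 * a = c3 at *
    generalize e2 - t3 * b1 = e3 at *
    generalize f2 - 2 * t3 * c2 + t3 ^ 2 * a = f3 at *
    push_cast at hn
    have hschur : (a * d1 - b1 ^ 2) * (a * f3 - c3 ^ 2) - (e3 * a - b1 * c3) ^ 2 = a := by
      have : (a * d1 - b1 ^ 2) * (a * f3 - c3 ^ 2) - (e3 * a - b1 * c3) ^ 2 =
          a * dd a b1 c3 d1 e3 f3 := by unfold dd; ring
      rw [this, hdet3, mul_one]
    have hd1 : 0 < d1 := by
      by_contra hneg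
      have : d1 ≤ 0 := not_lt.1 hneg
      nlinarith [sq_nonneg b1]
    have hf : 0 < a * f3 - c3 ^ 2 := by
      by_contra hneg
      have : a * f3 - c3 ^ 2 ≤ 0 := not_lt.1 hneg
      nlinarith [sq_nonneg (e3 * a - b1 * c3)]
    by_cases h1 : d1 < a
    · apply swap12
      refine ih d1 b1 e3 a c3 f3 hd1 (by linarith) ?_ ?_
      · rw [← hdet3]; unfold dd; ring
      · have h2 : d1 * (d1 * a - b1 ^ 2) < a * (a * d1 - b1 ^ 2) := by
          have : d1 * a - b1 ^ 2 = a * d1 - b1 ^ 2 := by ring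
          rw [this]
          exact mul_lt_mul_of_pos_right h1 hD
        omega
    by_cases h2 : a * f3 - c3 ^ 2 < a * d1 - b1 ^ 2
    · apply swap23
      refine ih a c3 b1 f3 e3 d1 ha hf ?_ ?_
      · rw [← hdet3]; unfold dd; ring
      · have h3 : a * (a * f3 - c3 ^ 2) < a * (a * d1 - b1 ^ 2) :=
          mul_lt_mul_of_pos_left h2 ha
        omega
    obtain ⟨r1, r2, r3, r4, r5, r6⟩ := final_bound ha hD hdet3 ht1 ht2 ht3 (not_lt.1 h1)
      (not_lt.1 h2)
    subst r1 r2 r3 r4 r5 r6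
    refine ⟨1, ?_⟩
    ext i j
    fin_cases i <;> fin_cases j <;> simp [sy]

/-- the six unit vectors -/
def S6 : Finset (Fin 3 → ℤ) :=
  {![1, 0, 0], ![-1, 0, 0], ![0, 1, 0], ![0, -1, 0], ![0, 0, 1], ![0, 0, -1]}

theorem mem_S6 (v : Fin 3 → ℤ) (h : v 0 ^ 2 + v 1 ^ 2 + v 2 ^ 2 = 1) : v ∈ S6 := by
  have hv : v = ![v 0, v 1, v 2] := by
    ext i; fin_cases i <;> rfl
  have h0 : v 0 ^ 2 ≤ 1 := by nlinarith [sq_nonneg (v 1), sq_nonneg (v 2)]
  have h1 : v 1 ^ 2 ≤ 1 := by nlinarith [sq_nonneg (v 0), sq_nonneg (v 2)]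
  have h2 : v 2 ^ 2 ≤ 1 := by nlinarith [sq_nonneg (v 0), sq_nonneg (v 1)]
  have b0 : -1 ≤ v 0 ∧ v 0 ≤ 1 := by constructor <;> nlinarith
  have b1 : -1 ≤ v 1 ∧ v 1 ≤ 1 := by constructor <;> nlinarith
  have b2 : -1 ≤ v 2 ∧ v 2 ≤ 1 := by constructor <;> nlinarith
  rw [hv]
  generalize v 0 = x at *
  generalize v 1 = y at *
  generalize v 2 = z at *
  clear hv
  obtain ⟨b01, b02⟩ := b0
  obtain ⟨b11, b12⟩ := b1
  obtain ⟨b21, b22⟩ := b2
  interval_cases x <;> interval_cases y <;> interval_cases z <;>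
    first
      | (exfalso; revert h; norm_num; done)
      | decide

/-- the rotations of the cube -/
def rots : Finset ((Fin 3 → ℤ) × (Fin 3 → ℤ) × (Fin 3 → ℤ)) :=
  (S6 ×ˢ S6 ×ˢ S6).filter fun q =>
    q.1 0 * q.2.1 0 + q.1 1 * q.2.1 1 + q.1 2 * q.2.1 2 = 0 ∧
    q.1 0 * q.2.2 0 + q.1 1 * q.2.2 1 + q.1 2 * q.2.2 2 = 0 ∧
    q.2.1 0 * q.2.2 0 + q.2.1 1 * q.2.2 1 + q.2.1 2 * q.2.2 2 = 0 ∧
    q.1 0 * q.2.1 1 * q.2.2 2 - q.1 0 * q.2.1 2 * q.2.2 1 - q.1 1 * q.2.1 0 * q.2.2 2 +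
      q.1 1 * q.2.1 2 * q.2.2 0 + q.1 2 * q.2.1 0 * q.2.2 1 - q.1 2 * q.2.1 1 * q.2.2 0 = 1

theorem card_rots : rots.card = 24 := by decide +kernel

theorem S6_norm (v : Fin 3 → ℤ) (h : v ∈ S6) : v 0 ^ 2 + v 1 ^ 2 + v 2 ^ 2 = 1 := by
  simp only [S6, Finset.mem_insert, Finset.mem_singleton] at h
  rcases h with rfl | rfl | rfl | rfl | rfl | rfl <;> decide

theorem card_one : Nat.card {R : M3 // R * Rᵀ = 1 ∧ R.det = 1} = 24 := by
  rw [← card_rots, ← Nat.card_eq_finsetCard]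
  refine Nat.card_congr
    { toFun := fun R => ⟨(R.1 0, R.1 1, R.1 2), ?_⟩
      invFun := fun q => ⟨Matrix.of ![q.1.1, q.1.2.1, q.1.2.2], ?_⟩
      left_inv := ?_
      right_inv := ?_ }
  · obtain ⟨R, h1, h2⟩ := R
    have e : ∀ i j, R i 0 * R j 0 + R i 1 * R j 1 + R i 2 * R j 2 = (1 : M3) i j := by
      intro i j
      rw [← h1, Matrix.mul_apply, Fin.sum_univ_three]
      rfl
    rw [Matrix.det_fin_three] at h2
    have e00 := e 0 0
    have e11 := e 1 1
    have e22 := e 2 2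
    have e01 := e 0 1
    have e02 := e 0 2
    have e12 := e 1 2
    simp only [Matrix.one_apply_eq] at e00 e11 e22
    rw [Matrix.one_apply_ne (by decide)] at e01 e02 e12
    rw [rots, Finset.mem_filter]
    refine ⟨?_, e01, e02, e12, h2⟩
    rw [Finset.mem_product, Finset.mem_product]
    refine ⟨mem_S6 _ ?_, mem_S6 _ ?_, mem_S6 _ ?_⟩
    · linarith
    · linarith
    · linarith
  · obtain ⟨⟨u, v, w⟩, hq⟩ := q
    rw [rots, Finset.mem_filter, Finset.mem_product, Finset.mem_product] at hq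
    obtain ⟨⟨hu, hv, hw⟩, h1, h2, h3, h4⟩ := hq
    have nu := S6_norm u hu
    have nv := S6_norm v hv
    have nw := S6_norm w hw
    simp only at h1 h2 h3 h4 nu nv nw
    constructor
    · ext i j
      rw [Matrix.mul_apply, Fin.sum_univ_three]
      fin_cases i <;> fin_cases j <;> simp [Matrix.transpose_apply] <;> linarith
    · rw [Matrix.det_fin_three]
      simpa using h4
  · rintro ⟨R, h1, h2⟩
    apply Subtype.ext
    ext i j
    fin_cases i <;> rfl
  · rintro ⟨⟨u, v, w⟩, hq⟩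
    rfl

theorem t_TORS : S_TORS := by
  intro M hM
  obtain ⟨hsym, h0, h1, hdet⟩ := hM
  have s10 : M 1 0 = M 0 1 := by conv_rhs => rw [← hsym, transpose_apply]
  have s20 : M 2 0 = M 0 2 := by conv_rhs => rw [← hsym, transpose_apply]
  have s21 : M 2 1 = M 1 2 := by conv_rhs => rw [← hsym, transpose_apply]
  have hM' : M = sy (M 0 0) (M 0 1) (M 0 2) (M 1 1) (M 1 2) (M 2 2) := by
    ext i j
    fin_cases i <;> fin_cases j <;> simp [sy, s10, s20, s21]
  have hdd : dd (M 0 0) (M 0 1) (M 0 2) (M 1 1) (M 1 2) (M 2 2) = 1 := by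
    rw [← hdet, Matrix.det_fin_three, s10, s20, s21]
    unfold dd
    ring
  have hrep : Rep M := by
    rw [hM']
    refine rep_all (M 0 0 * (M 0 0 * M 1 1 - M 0 1 ^ 2)).toNat _ _ _ _ _ _ h0 h1 hdd ?_
    exact Int.self_le_toNat _
  -- a matrix of determinant one
  obtain ⟨A₀, hA₀, hd₀⟩ : ∃ A₀ : M3, A₀ᵀ * A₀ = M ∧ A₀.det = 1 := by
    obtain ⟨A, hA⟩ := hrep
    have h2 : A.det * A.det = 1 := by
      have := congrArg Matrix.det hA
      rwa [Matrix.det_mul, Matrix.det_transpose, hdet] at this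
    rcases mul_self_eq_one_iff.1 h2 with h3 | h3
    · exact ⟨A, hA, h3⟩
    · refine ⟨-A, ?_, ?_⟩
      · rw [transpose_neg, neg_mul_neg, hA]
      · rw [Matrix.det_neg, h3]
        norm_num
  have hu : IsUnit A₀.det := by rw [hd₀]; exact isUnit_one
  have hinv1 : A₀ * A₀⁻¹ = 1 := Matrix.mul_nonsing_inv _ hu
  have hinv2 : A₀⁻¹ * A₀ = 1 := Matrix.nonsing_inv_mul _ hu
  have hinvd : (A₀⁻¹).det = 1 := by
    have := congrArg Matrix.det hinv1
    rw [Matrix.det_mul, hd₀, one_mul, Matrix.det_one] at this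
    exact this
  rw [← card_one]
  refine Nat.card_congr
    { toFun := fun A => ⟨A.1 * A₀⁻¹, ?_⟩
      invFun := fun R => ⟨R.1 * A₀, ?_⟩
      left_inv := ?_
      right_inv := ?_ }
  · obtain ⟨A, hA, hd⟩ := A
    constructor
    · have h2 : (A * A₀⁻¹)ᵀ * (A * A₀⁻¹) = 1 := by
        rw [transpose_mul]
        calc (A₀⁻¹)ᵀ * Aᵀ * (A * A₀⁻¹) = (A₀⁻¹)ᵀ * (Aᵀ * A) * A₀⁻¹ := by
              simp only [Matrix.mul_assoc]
          _ = (A₀⁻¹)ᵀ * (A₀ᵀ * A₀) * A₀⁻¹ := by rw [hA, hA₀]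
          _ = (A₀ * A₀⁻¹)ᵀ * (A₀ * A₀⁻¹) := by
              rw [transpose_mul]; simp only [Matrix.mul_assoc]
          _ = 1 := by rw [hinv1, transpose_one, Matrix.one_mul]
      exact mul_eq_one_comm.1 h2
    · rw [Matrix.det_mul, hd, hinvd, one_mul]
  · obtain ⟨R, hR, hd⟩ := R
    constructor
    · have h2 : Rᵀ * R = 1 := mul_eq_one_comm.1 hR
      rw [transpose_mul]
      calc A₀ᵀ * Rᵀ * (R * A₀) = A₀ᵀ * (Rᵀ * R) * A₀ := by simp only [Matrix.mul_assoc]
        _ = M := by rw [h2, Matrix.mul_one, hA₀]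
    · rw [Matrix.det_mul, hd, hd₀, one_mul]
  · rintro ⟨A, hA, hd⟩
    apply Subtype.ext
    show A * A₀⁻¹ * A₀ = A
    rw [Matrix.mul_assoc, hinv2, Matrix.mul_one]
  · rintro ⟨R, hR, hd⟩
    apply Subtype.ext
    show R * A₀ * A₀⁻¹ = R
    rw [Matrix.mul_assoc, hinv1, Matrix.mul_one]

end Pool.Agent.Z815.Tors
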